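import Mathlib
import Pool.Agent.Helper394.Conv

open Finset Filter Topology

namespace Pool.Agent.Results.MP_ee50b4_pr.PeresCycleFalse

noncomputable section

/-- Convolution powers `μ^{*t}` of a function on `ℤ/n`; `μ^{*0}` is the point mass at `0`. -/
def convPow {n : ℕ} [NeZero n] (μ : ZMod n → ℝ) : ℕ → ZMod n → ℝ
  | 0 => fun x => if x = 0 then 1 else 0
  | t + 1 => fun x => ∑ y, convPow μ t y * μ (x - y)

/-- `μ` is a probability measure on `ℤ/n` driving an ergodic convolution walk: its support is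
not contained in any coset of a proper subgroup. -/
structure IsErgodicWalk {n : ℕ} [NeZero n] (μ : ZMod n → ℝ) : Prop where
  nonneg : ∀ x, 0 ≤ μ x
  sum_eq_one : ∑ x, μ x = 1
  support : ∀ (H : AddSubgroup (ZMod n)) (a : ZMod n), (∀ x, μ x ≠ 0 → x - a ∈ H) → H = ⊤

/-- Total variation distance `‖μ^{*t} - U‖_TV` to the uniform law. -/
def tvDist {n : ℕ} [NeZero n] (μ : ZMod n → ℝ) (t : ℕ) : ℝ :=
  (1 / 2 : ℝ) * ∑ x, |convPow μ t x - 1 / (n : ℝ)|

/-- Mixing time `T_mix(ε) = min {t : ‖μ^{*t} - U‖_TV ≤ ε}`. -/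
def Tmix {n : ℕ} [NeZero n] (μ : ZMod n → ℝ) (ε : ℝ) : ℕ := sInf {t : ℕ | tvDist μ t ≤ ε}

/-- The eigenvalue `μ̂(j) = ∑_x μ(x) exp(2π i j x / n)`. -/
def muHat {n : ℕ} [NeZero n] (μ : ZMod n → ℝ) (j : ZMod n) : ℂ :=
  ∑ x, (μ x : ℂ) *
    Complex.exp ((2 * Real.pi * ((j.val : ℝ) * (x.val : ℝ)) / (n : ℝ) : ℝ) * Complex.I)

/-- The spectral gap `γ = 1 - max_{j ≠ 0} |μ̂(j)|`. -/
def gap {n : ℕ} [NeZero n] (μ : ZMod n → ℝ) : ℝ := 1 - ⨆ j : {j : ZMod n // j ≠ 0}, ‖muHat μ j‖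

/-- Relaxation time `T_rel = 1 / γ`. -/
def Trel {n : ℕ} [NeZero n] (μ : ZMod n → ℝ) : ℝ := 1 / gap μ

/-- `μ` is the step law of a lazy simple random walk on an unweighted Cayley graph of `ℤ/n`:
mass `1/2` at `0` and the rest uniform on a set `S = -S` with `0 ∉ S`. -/
def IsLazySimple {n : ℕ} [NeZero n] (μ : ZMod n → ℝ) : Prop :=
  ∃ S : Finset (ZMod n), S.Nonempty ∧ 0 ∉ S ∧ (∀ s ∈ S, -s ∈ S) ∧
    ∀ x, μ x = if x = 0 then 1 / 2 else if x ∈ S then 1 / (2 * (S.card : ℝ)) else 0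

/-- Total variation cutoff: `T_mix(ε) / T_mix(1-ε) → 1` for every fixed `ε ∈ (0,1/2)`. -/
def HasCutoff (n : ℕ → ℕ) [∀ k, NeZero (n k)] (μ : ∀ k, ZMod (n k) → ℝ) : Prop :=
  ∀ ε : ℝ, 0 < ε → ε < 1 / 2 →
    Tendsto (fun k => (Tmix (μ k) ε : ℝ) / (Tmix (μ k) (1 - ε) : ℝ)) atTop (𝓝 1)

/-- The condition `T_rel / T_mix(1/2) → 0`. -/
def RelOverMixToZero (n : ℕ → ℕ) [∀ k, NeZero (n k)] (μ : ∀ k, ZMod (n k) → ℝ) : Prop :=
  Tendsto (fun k => Trel (μ k) / (Tmix (μ k) (1 / 2) : ℝ)) atTop (𝓝 0)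

theorem convPow_eq {n : ℕ} [NeZero n] (S : Finset (ZMod n)) (t : ℕ) (y : ZMod n) :
    convPow (Helper394.mu S) t y = ((Helper394.Pmu S) ^ t) 0 y := by
  induction t generalizing y with
  | zero =>
    simp only [convPow, pow_zero, Matrix.one_apply]
    by_cases h : y = 0
    · rw [if_pos h, if_pos h.symm]
    · rw [if_neg h, if_neg (fun h' => h h'.symm)]
  | succ t ih =>
    rw [convPow, pow_succ, Matrix.mul_apply]
    refine Finset.sum_congr rfl fun z _ => ?_
    rw [ih]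
    rfl

/-- There is a sequence of ergodic convolution walks on cycles `ℤ/n_k`, `n_k → ∞` (even lazy
simple random walks on unweighted Cayley graphs of `ℤ/n_k`) with `T_rel / T_mix(1/2) → 0` but
without total variation cutoff. -/
theorem result :
    ∃ (n : ℕ → ℕ) (_ : ∀ k, NeZero (n k)) (μ : ∀ k, ZMod (n k) → ℝ),
      Tendsto n atTop atTop ∧
      (∀ k, 2 ≤ n k) ∧
      (∀ k, IsErgodicWalk (μ k)) ∧
      (∀ k, IsLazySimple (μ k)) ∧
      RelOverMixToZero n μ ∧
      ¬ HasCutoff n μ := by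
  choose N hN S hTN hS using fun n : ℕ => Helper394.exists_bad (n + 64) (by omega)
  have hP : ∀ n, ∀ f : ZMod (N n) → ℝ,
      (Helper394.Pmu (S n)).mulVec f = Helper394.V (S n) f :=
    fun n f => Helper394.Pmu_mulVec (S n) f
  have hcard : ∀ n, (0 : ℝ) < (N n : ℝ) := fun n => by
    have := (hN n).out
    have : 0 < N n := Nat.pos_of_ne_zero this
    exact_mod_cast this
  have hc : ∀ n, (Fintype.card (ZMod (N n)) : ℝ) = (N n : ℝ) := fun n => by rw [ZMod.card]
  have htv : ∀ n t, tvDist (Helper394.mu (S n)) t =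
      (1 / 2 : ℝ) * ∑ y, |((Helper394.Pmu (S n)) ^ t) 0 y -
        1 / (Fintype.card (ZMod (N n)) : ℝ)| := by
    intro n t
    rw [tvDist, hc]
    simp only [convPow_eq]
  have h1 : ∀ n, ∀ t ≤ n + 64, 1 / 2 < tvDist (Helper394.mu (S n)) t := by
    intro n t ht
    rw [htv]
    have h := Helper394.fact_lower (hS n) (hP n) t ht
    linarith
  have h2 : ∀ n, tvDist (Helper394.mu (S n)) (2 * ((n + 64) / 8) + 1) ≤ 1 - 1 / 2000 := by
    intro n
    rw [htv]
    exact Helper394.fact_upper (hS n) (hP n) ((n + 64) / 8) (by omega) 0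
  have h3 : ∀ n ε, 0 < ε → ∃ t, tvDist (Helper394.mu (S n)) t ≤ ε := by
    intro n ε hε
    have hG := hcard n
    obtain ⟨t, ht⟩ := Helper394.fact_conv (hS n) (hP n) (ε / (N n : ℝ)) (by positivity)
    refine ⟨t, ?_⟩
    rw [htv]
    calc (1 / 2 : ℝ) * ∑ y, |((Helper394.Pmu (S n)) ^ t) 0 y -
          1 / (Fintype.card (ZMod (N n)) : ℝ)|
        ≤ (1 / 2 : ℝ) * ∑ _y : ZMod (N n), ε / (N n : ℝ) := by
          gcongr with y
          exact ht 0 y
      _ = ε / 2 := by
          simp only [Finset.sum_const, Finset.card_univ, nsmul_eq_mul, hc]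
          field_simp
      _ ≤ ε := by linarith
  refine ⟨N, hN, fun k => Helper394.mu (S k), ?_, ?_, ?_, ?_, ?_, ?_⟩
  · refine tendsto_atTop_mono (fun n => ?_) tendsto_id
    have := hTN n
    simp only [id]
    omega
  · intro k
    have := hTN k
    omega
  · intro k
    refine ⟨Helper394.mu_nonneg _, Helper394.mu_sum _ (hS k).nonempty, ?_⟩
    intro H a ha
    have h0 : -a ∈ H := by
      have := ha 0 (Helper394.mu_zero_pos _).ne'
      rwa [zero_sub] at this
    rw [eq_top_iff]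
    intro x _
    refine (hS k).closed (H : Set (ZMod (N k))) 0 (AddSubgroup.zero_mem _) ?_ x
    intro y hy s hs
    have h1 := ha s (Helper394.mu_mem_pos _ s hs).ne'
    have h2 : s ∈ H := by
      have h3 := H.sub_mem h1 h0
      simpa using h3
    exact H.add_mem hy h2
  · intro k
    refine ⟨S k, (hS k).nonempty, (hS k).zero, (hS k).neg, fun x => ?_⟩
    change Helper394.mu (S k) x = _
    unfold Helper394.mu
    by_cases hx : x = 0
    · rw [if_pos hx, if_pos hx, hx, if_neg (hS k).zero, add_zero]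
    · rw [if_neg hx, if_neg hx, zero_add]
  · have h4 : Tendsto (fun n => (Tmix (Helper394.mu (S n)) (1 / 2) : ℝ) /
        Trel (Helper394.mu (S n))) atTop atTop := by
      apply Helper394.tendsto_div_of
      · intro n
        exact Helper394.sInf_gt _ (n + 64) _ le_rfl (h1 n) (h3 n _ (by norm_num))
      · intro n
        have hne : Nonempty {j : ZMod (N n) // j ≠ 0} := by
          have h4 : 1 < N n := by have := hTN n; omega
          have : Fact (1 < N n) := ⟨h4⟩
          exact ⟨⟨1, one_ne_zero⟩⟩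
        have h5 : ⨆ j : {j : ZMod (N n) // j ≠ 0}, ‖muHat (Helper394.mu (S n)) j‖ ≤ 7 / 8 :=
          ciSup_le fun j => Helper394.muHat_norm_le (hS n) j.1 j.2
        have h50 : 0 ≤ ⨆ j : {j : ZMod (N n) // j ≠ 0}, ‖muHat (Helper394.mu (S n)) j‖ :=
          Real.iSup_nonneg fun j => norm_nonneg _
        have h6 : 0 < gap (Helper394.mu (S n)) := by unfold gap; linarith
        refine ⟨one_div_pos.mpr h6, ?_⟩
        rw [Trel, div_le_iff₀ h6]
        unfold gap
        linarith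
    have h5 := h4.inv_tendsto_atTop
    refine h5.congr fun n => ?_
    rw [Pi.inv_apply, inv_div]
  · intro hcut
    exact Helper394.no_cutoff_of (fun n => tvDist (Helper394.mu (S n))) h1 h2 h3
      (hcut (1 / 2000) (by norm_num) (by norm_num))

end

end Pool.Agent.Results.MP_ee50b4_pr.PeresCycleFalse
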